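import Pool.Agent.H93.PG.Targets

/-!
# Row TA4 of the board pgs (helper93, MP_32ebde_an)

Tails with four letters: the ternary sequence of Thue.
-/

set_option autoImplicit false

open MeasureTheory Filter Topology Finset

namespace Pool.Agent.H1.PG

open Pool.Agent.H93.PF Pool.Agent.H93.PG

/-- the letter of two consecutive terms -/
def lt4 (a b : Bool) : ℕ := b.toNat + 1 - a.toNat

theorem lt4_le (a b : Bool) : lt4 a b ≤ 2 := by
  cases a <;> cases b <;> decide

theorem vt_eq (n : ℕ) : vt n = lt4 (tm n) (tm (n + 1)) := rfl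

theorem vt_le (n : ℕ) : vt n ≤ 2 := by
  rw [vt_eq]
  exact lt4_le _ _

theorem lt4_not (a b : Bool) : lt4 (!b) (!a) = lt4 a b := by
  cases a <;> cases b <;> rfl

/-- the tail sequence -/
def rt4 (d : ℕ) (hd : 4 ≤ d) (n : ℕ) : Fin d := ⟨vt n, by have := vt_le n; omega⟩

theorem rt4_ne (d : ℕ) (hd : 4 ≤ d) (n : ℕ) : rt4 d hd n ≠ ⟨3, by omega⟩ := by
  intro h
  have h1 := congrArg Fin.val h
  have h2 := vt_le n
  simp only [rt4] at h1
  omega

theorem rt4_iff (d : ℕ) (hd : 4 ≤ d) {n k : ℕ} : rt4 d hd n = rt4 d hd k ↔ vt n = vt k := by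
  unfold rt4
  rw [Fin.mk.injEq]

theorem exp_ex (K : ℕ) (hK : 2 ≤ K) : ∃ i : ℕ, 2 * K + 3 ≤ 2 * 4 ^ i ∧
    2 * 4 ^ i < 4 * (2 * K + 3) := by
  classical
  have hex : ∃ i : ℕ, 2 * K + 3 ≤ 2 * 4 ^ i := by
    refine ⟨K, ?_⟩
    have h : ∀ k : ℕ, k + 2 ≤ 4 ^ (k + 1) := by
      intro k
      induction k with
      | zero => norm_num
      | succ k ih => rw [pow_succ]; omega
    obtain ⟨k, rfl⟩ : ∃ k, K = k + 2 := ⟨K - 2, by omega⟩
    have h1 := h k
    have h2 : 4 ^ (k + 2) = 4 * 4 ^ (k + 1) := by ring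
    rw [h2]
    omega
  refine ⟨Nat.find hex, Nat.find_spec hex, ?_⟩
  have h0 : Nat.find hex ≠ 0 := by
    intro h
    have h1 := Nat.find_spec hex
    rw [h] at h1
    omega
  obtain ⟨i, hi⟩ := Nat.exists_eq_succ_of_ne_zero h0
  have h1 := Nat.find_min hex (m := i) (by omega)
  rw [hi, Nat.succ_eq_add_one, pow_succ]
  omega

theorem pal4 (hTMB : T_TMB) (i : ℕ) {M : ℕ} (hM : M = 2 * 4 ^ i) {n : ℕ} (hn : n < 4 * M - 1) :
    vt (4 * M - 2 - n) = vt n := by
  have hpow : 4 * M = 2 ^ (2 * i + 3) := by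
    rw [hM, pow_add, pow_mul]
    norm_num
    ring
  have hodd : ((2 * i + 3) % 2 == 1) = true := by
    have : (2 * i + 3) % 2 = 1 := by omega
    rw [this]
    rfl
  have hr : ∀ x, x < 4 * M → tm (4 * M - 1 - x) = !tm x := by
    intro x hx
    have h := hTMB.2.2.2.2 (2 * i + 3) x (by rw [← hpow]; exact hx)
    rw [← hpow, hodd] at h
    rw [h]
    cases tm x <;> rfl
  rw [vt_eq, vt_eq]
  have e1 : 4 * M - 2 - n = 4 * M - 1 - (n + 1) := by omega
  have e2 : 4 * M - 2 - n + 1 = 4 * M - 1 - n := by omega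
  rw [e2, e1, hr _ (by omega), hr _ (by omega)]
  exact lt4_not _ _

theorem pf_TA4 (hTMB : T_TMB) (hTMO : T_TMO) (hTMC : T_TMC) (hVTM : T_VTM) : T_TA4 := by
  intro d m hd hm
  obtain ⟨t0, t1, t2, t3, t4⟩ := hTMB
  have tm1 : tm 1 = true := by
    have h := t2 0
    simpa [t0] using h
  have tm2 : tm 2 = true := by
    have h := t1 1
    simpa [tm1] using h
  have tm3 : tm 3 = false := by
    have h := t2 1
    simpa [tm1] using h
  have v0 : vt 0 = 2 := by rw [vt_eq, t0, tm1]; rfl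
  have v1 : vt 1 = 1 := by rw [vt_eq, tm1, tm2]; rfl
  have v2 : vt 2 = 0 := by rw [vt_eq, tm2, tm3]; rfl
  let e : Fin d := ⟨3, by omega⟩
  have hxe : ∀ i, 0 < i → xx 1 (fun _ => e) (rt4 d hd) i = rt4 d hd (i - 1) := by
    intro i hi
    unfold xx
    rw [if_neg (by omega)]
  have hx0 : xx 1 (fun _ => e) (rt4 d hd) 0 = e := by
    unfold xx
    rw [if_pos (by omega)]
  let t : Tail d m :=
    { Y := 1
      y := fun _ => e
      rt := rt4 d hd
      Y0 := one_pos
      m2 := hm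
      c1 := by
        intro q i hq
        have hmq := hm q hq
        rcases Nat.eq_zero_or_pos i with hi | hi
        · subst hi
          refine ⟨0, le_rfl, by omega, ?_⟩
          rw [hx0, hxe _ (by omega)]
          exact rt4_ne d hd _
        · obtain ⟨j, h1, h2, h3⟩ := hVTM q (i - 1) hq
          refine ⟨j + 1, by omega, by omega, ?_⟩
          rw [hxe _ (by omega), hxe _ (by omega)]
          have e1 : j + 1 + q - 1 = j + q := by omega
          rw [e1, Nat.add_sub_cancel]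
          intro h
          exact h3 ((rt4_iff d hd).mp h)
      c2 := by
        intro i hi
        refine ⟨0, one_pos, ?_⟩
        rw [add_zero, hxe _ hi]
        exact rt4_ne d hd _
      c3 := by
        intro q hq
        left
        have := hm q hq
        omega
      cp := by
        intro k hk
        have h1 := hTMC (k + 1) (by omega)
        let F : (Fin (k + 1) → Bool) → (Fin k → Fin d) := fun w j =>
          ⟨lt4 (w j.castSucc) (w j.succ), by have := lt4_le (w j.castSucc) (w j.succ); omega⟩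
        have h2 : (Set.range fun (i : ℕ) (j : Fin k) => rt4 d hd (i + (j : ℕ))) =
            F '' (Set.range fun (i : ℕ) (j : Fin (k + 1)) => tm (i + (j : ℕ))) := by
          rw [← Set.range_comp]
          congr 1
        rw [h2]
        exact (Set.ncard_image_le (Set.toFinite _)).trans h1 }
  refine ⟨{ t := t, e := e, ye := fun _ => rfl, e0 := rt4_ne d hd 0, my := ?_, frm := ?_ }, rfl⟩
  · intro q hq
    show 2 * q + 1 ≤ m q + 1
    have := hm q hq
    omega
  intro K hK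
  obtain ⟨i, hi1, hi2⟩ := exp_ex K hK
  obtain ⟨M, hM⟩ : ∃ M, M = 2 * 4 ^ i := ⟨_, rfl⟩
  rw [← hM] at hi1 hi2
  have hM' : M = 2 ^ (2 * i + 1) := by
    rw [hM, pow_add, pow_mul]
    norm_num
    ring
  have h3M : ∀ x, x < M → tm (3 * M + x) = tm x := by
    intro x hx
    have h := t3 (2 * i + 1) 3 x (by rw [← hM']; exact hx)
    rw [← hM', tm3, mul_comm] at h
    rw [h]
    cases tm x <;> rfl
  have hv31 : vt (3 * M + 1) = 1 := by
    rw [vt_eq, h3M 1 (by omega), show 3 * M + 1 + 1 = 3 * M + 2 by ring, h3M 2 (by omega), tm1,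
      tm2]
    rfl
  have hv32 : vt (3 * M + 2) = 0 := by
    rw [vt_eq, h3M 2 (by omega), show 3 * M + 2 + 1 = 3 * M + 3 by ring, h3M 3 (by omega), tm2,
      tm3]
    rfl
  refine ⟨4 * M - 1, 3 * M + 2, M - 3, ?_⟩
  refine ⟨by omega, by omega, by omega, by omega, ?_, ?_, ?_, rt4_ne d hd _, rt4_ne d hd _,
    ?_, ?_⟩
  · show 3 * M + 2 + (M - 3) + 1 = 4 * M - 1 + 1
    omega
  · intro x hx
    show rt4 d hd (4 * M - 1 - 1 - x) = rt4 d hd x
    rw [rt4_iff]
    have e1 : 4 * M - 1 - 1 - x = 4 * M - 2 - x := by omega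
    rw [e1]
    exact pal4 ⟨t0, t1, t2, t3, t4⟩ i hM hx
  · intro x hx
    have : x + 1 < 1 := hx
    omega
  · refine ⟨0, by omega, ?_⟩
    show rt4 d hd (3 * M + 2 - 1 - 0) ≠ rt4 d hd 0
    intro h
    rw [rt4_iff] at h
    have e1 : 3 * M + 2 - 1 - 0 = 3 * M + 1 := by omega
    rw [e1, hv31, v0] at h
    omega
  · refine ⟨0, by omega, ?_⟩
    show rt4 d hd (M - 3 - 1 - 0) ≠ rt4 d hd 0
    intro h
    rw [rt4_iff] at h
    have e1 : M - 3 - 1 - 0 = 4 * M - 2 - (3 * M + 2) := by omega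
    rw [e1, pal4 ⟨t0, t1, t2, t3, t4⟩ i hM (by omega), hv32, v0] at h
    omega

end Pool.Agent.H1.PG
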